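import Pool.Agent.Q128.FatIrr3

/-!
# Every positive integer is the number of irreducible FAT colourings of some connected graph

The definitions (`IsFAT`, `IsFATPartition`, `IsIrreducible`, `orbitSetoid`, `numIrreducible`) are in
`Pool.Agent.Q128.FatIrrDefs`.
-/

set_option autoImplicit false

namespace Pool.Agent.Results.MP_48b99b_co.EveryNumber

open SimpleGraph Q128.FatIrr Classical

theorem reg_K2 : Reg (⊤ : SimpleGraph Bool) 1 := by
  intro v
  cases v <;> simp

theorem bot_fat : NF (⊤ : SimpleGraph Bool) ⊥ := by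
  refine ⟨1, 0, fun v x => ⟨fun h => ?_, fun h => ?_⟩⟩
  · have h' : v ≠ x := h
    unfold cnt
    cases v <;> cases x <;> simp [Setoid.bot_def] at h' ⊢
  · have h' : v = x := h
    subst h'
    unfold cnt
    cases v <;> simp [Setoid.bot_def]

theorem good_K2 : Good (⊤ : SimpleGraph Bool) false 1 := by
  have hbot : IsFATPartition (⊤ : SimpleGraph Bool) ⊥ := (fat_iff le_rfl reg_K2 _).2 bot_fat
  refine ⟨⟨1, le_rfl, reg_K2⟩, SimpleGraph.connected_top, ?_, ?_, ?_⟩
  · intro f hf x
    have h1 := hf true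
    have h2 := hf false
    unfold nb at h1 h2
    cases x <;> simp at h1 h2 <;> assumption
  · intro h
    have h1 := h.2 ⊥ hbot bot_le
    have h2 : (⊤ : Setoid Bool) true false := trivial
    rw [← h1] at h2
    have h3 : true = false := h2
    cases h3
  · have huniq : ∀ s : {s : Setoid Bool // IsIrreducible (⊤ : SimpleGraph Bool) s}, s.1 = ⊥ :=
      fun s => (s.2.2 ⊥ hbot bot_le).symm
    have hirr : IsIrreducible (⊤ : SimpleGraph Bool) ⊥ := ⟨hbot, fun t _ h => le_bot_iff.1 h⟩
    unfold numIrreducible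
    rw [Nat.card_eq_one_iff_unique]
    refine ⟨⟨fun q q' => ?_⟩, ⟨Quotient.mk _ ⟨⊥, hirr⟩⟩⟩
    obtain ⟨s, rfl⟩ := Quotient.exists_rep q
    obtain ⟨t, rfl⟩ := Quotient.exists_rep q'
    have : s = t := Subtype.ext ((huniq s).trans (huniq t).symm)
    rw [this]

theorem exists_good (b : ℕ) : ∃ (V : Type) (_ : Fintype V) (_ : Nonempty V) (G : SimpleGraph V)
    (ε : Bool), Good G ε (b + 1) := by
  induction b with
  | zero => exact ⟨Bool, inferInstance, inferInstance, ⊤, false, good_K2⟩
  | succ b ih =>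
    obtain ⟨V, i1, i2, G, ε, h⟩ := ih
    exact ⟨V × Bool, inferInstance, inferInstance, dbl ε G, !ε, good_dbl h⟩

/-- For every positive integer `b` there is a finite connected graph with exactly `b` irreducible FAT
colourings (up to automorphisms). -/
theorem result (b : ℕ) (hb : 1 ≤ b) : ∃ (V : Type) (_ : Fintype V) (G : SimpleGraph V),
    G.Connected ∧ numIrreducible G = b := by
  obtain ⟨b, rfl⟩ : ∃ c, b = c + 1 := ⟨b - 1, by omega⟩
  obtain ⟨V, i1, i2, G, ε, h⟩ := exists_good b
  exact ⟨V, i1, G, h.conn, h.num⟩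

end Pool.Agent.Results.MP_48b99b_co.EveryNumber
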